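import Pool.Agent.LTCF.Main
import Pool.Agent.LTCF.NegFinal
import Pool.Agent.LTCF.Two

/-!
# Local testability of affine invariant codes over one finite field: the exact threshold

The alphabet `F` is one fixed finite field. For the codes over `F` which are invariant under the
affine maps of a finite extension field of `F` (the class studied in the literature) the statement
of the question holds exactly for `q ≤ 4`, and in addition for `q = 5` if `F` has two elements; in
particular, for all other `q` the statement of the question fails for the doubly transitive codes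
over the field `F`.
-/

namespace Pool.Agent.Results.MP_9eb38d_lc.FieldThreshold

open Pool.Agent.LTC Pool.Agent.LTCF

theorem lowWeightDual_mono {ι F : Type} [Fintype ι] [Field F] [DecidableEq F]
    (C : Submodule F (ι → F)) {q q' : ℕ} (h : q ≤ q')
    (hspan : Submodule.span F (lowWeightDual C q) = dualCode C) :
    Submodule.span F (lowWeightDual C q') = dualCode C := by
  refine le_antisymm (Submodule.span_le.2 fun u hu => hu.1) ?_
  rw [← hspan]
  exact Submodule.span_mono fun u hu => ⟨hu.1, hu.2.trans h⟩

/-- the negative part for affine invariant codes -/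
theorem exists_bad (F : Type) [Field F] [Fintype F] [DecidableEq F] (q : ℕ)
    (hq : ¬ (q ≤ 4 ∨ q = 5 ∧ Fintype.card F = 2)) (q' : ℕ) (s : ℝ) (hs : 0 < s) :
    ∃ (K : Type) (_ : Field K) (_ : Fintype K) (_ : Algebra F K)
      (C : Submodule F (K → F)), AffineInvariant C ∧
        Submodule.span F (lowWeightDual C q) = dualCode C ∧ ¬ LocallyTestable C q' s := by
  have hF2 : 2 ≤ Fintype.card F := Fintype.one_lt_card
  by_cases hF : Fintype.card F = 2
  · obtain ⟨K, iF, iFt, iA, C, h1, h2, h3⟩ := exists_affine_not_testable_two F hF q' s hs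
    exact ⟨K, iF, iFt, iA, C, h1, lowWeightDual_mono C (by omega) h2, h3⟩
  · obtain ⟨K, iF, iFt, iA, C, h1, h2, h3⟩ :=
      exists_affine_not_testable (F := F) (by omega) q' s hs
    exact ⟨K, iF, iFt, iA, C, h1, lowWeightDual_mono C (by omega) h2, h3⟩

/-- Let `F` be a finite field. For the affine invariant codes over `F` the uniform local
testability statement of the question, for one value `q`, is true if and only if `q ≤ 4`, or
`q = 5` and `F` has two elements. For all other `q` the statement for the doubly transitive codes
over `F` is false. -/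
theorem result (F : Type) [Field F] [Fintype F] [DecidableEq F] (q : ℕ) :
    (AffineTestable F q ↔ q ≤ 4 ∨ q = 5 ∧ Fintype.card F = 2) ∧
      (¬ (q ≤ 4 ∨ q = 5 ∧ Fintype.card F = 2) → ¬ TransitiveTestable F q) := by
  refine ⟨⟨?_, fun hq => ?_⟩, fun hq => ?_⟩
  · rintro ⟨q', s, hs, h⟩
    by_contra hq
    obtain ⟨K, iF, iFt, iA, C, h1, h2, h3⟩ := exists_bad F q hq q' s hs
    exact h3 (@h K iF iFt iA C h1 h2)
  · refine ⟨Fintype.card F ^ 2 + 8,
      1 / (2000 * ((Fintype.card F ^ 2 + 8 : ℕ) : ℝ) * ((3 : ℕ) + 1)), by positivity, ?_⟩
    intro K _ _ _ C hC hspan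
    rcases hq with hq | ⟨rfl, hF⟩
    · exact testable_four hC (lowWeightDual_mono C hq hspan)
    · by_cases hbot : C = ⊥
      · rw [hbot]
        exact testable_bot
      · rw [lowWeightDual_five hF (one_mem hC hbot)] at hspan
        exact testable_four hC hspan
  · rintro ⟨q', s, hs, h⟩
    obtain ⟨K, iF, iFt, iA, C, h1, h2, h3⟩ := exists_bad F q hq q' s hs
    exact h3 (@h K iFt C (AffineInvariant.doublyTransitive h1) h2)

end Pool.Agent.Results.MP_9eb38d_lc.FieldThreshold
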