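import Pool.Agent.LTC.BoxDual
import Pool.Agent.LTC.Positive

/-!
# Local testability of doubly transitive codes: the exact threshold

The question asks whether for every `q ≥ 1` the doubly transitive linear codes whose dual is
spanned by words of weight at most `q` are uniformly locally testable.  The answer is negative;
the statement holds exactly for `q ≤ 3`.
-/

namespace Pool.Agent.Results.MP_9eb38d_lc.Threshold

open Pool.Agent.LTC

theorem lowWeightDual_mono {ι F : Type} [Fintype ι] [Field F] [DecidableEq F]
    (C : Submodule F (ι → F)) {q q' : ℕ} (h : q ≤ q')
    (hspan : Submodule.span F (lowWeightDual C q) = dualCode C) :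
    Submodule.span F (lowWeightDual C q') = dualCode C := by
  refine le_antisymm (Submodule.span_le.2 fun u hu => hu.1) ?_
  rw [← hspan]
  exact Submodule.span_mono fun u hu => ⟨hu.1, hu.2.trans h⟩

/-- The uniform local testability statement of the question, for one value `q ≥ 1`, is true if and
only if `q ≤ 3`.  In particular it is false for `q = 4`, so that the question has a negative
answer. -/
theorem result (q : ℕ) (_hq : 1 ≤ q) : UniformlyTestable q ↔ q ≤ 3 := by
  constructor
  · rintro ⟨q', s, hs, h⟩
    by_contra hq
    push Not at hq
    obtain ⟨F, iF, iFt, iFd, n, C, h1, h2, h3⟩ := exists_not_locallyTestable q' s hs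
    exact h3 (@h F iF iFt iFd n C h1 (lowWeightDual_mono C hq h2))
  · intro hq
    refine ⟨3, 1 / 26, by norm_num, ?_⟩
    intro F _ _ _ n C hC hspan
    exact locallyTestable_of_weight_three hC (lowWeightDual_mono C hq hspan)

end Pool.Agent.Results.MP_9eb38d_lc.Threshold
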